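import Pool.Agent.W994.SAC.Final

/-!
# A pushdown store saves space for nondeterministic computations with few steps

The unrolled De Bruijn graph has the nodes `(j, g, i)` with a height `j ≤ h`, a word `g` of `p + 1`
letters `0, 1` and a letter `i`; the children of `(j + 1, g, i)` are `(j, shift g i, s)`, `s = 0, 1`.
Every inner node has a table `[k]^2 → [k]`, every leaf a value in `[k]`, and the value of a node is
the entry of its table at the values of its children. The function `f` is the lowest bit of the value
of a root.

For a constant `q`, `h = q (p + 2)` and `k = 2^(a p)` the function is in nonuniform `LOGCFL`: it has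
semi-unbounded circuits of polynomial size and logarithmic depth, and it is computed by a
deterministic program with a pushdown store in logarithmic space and polynomial time. It is also
computed in time `N^δ`. We prove that nondeterministic branching programs (without a pushdown store)
of log size at most `N^c` which have an accepting computation with at most `N^θ` steps on every input
with `f = true` compute neither `f` nor its complement, for every `θ < 1/4`. The programs are
arbitrary nondeterministic `k`-way branching programs, and acceptance is semantic.

The proof uses hierarchical dyadic decompositions of the time into intervals in which the set of the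
nodes whose relevant entries are not read has a small boundary (modules `Pool.Agent.W994.DE.*`), and
a word argument in the De Bruijn graph (`Pool.Agent.W994.NC.*`).
-/

set_option autoImplicit false

namespace Pool.Agent.Results.MP_6216ea_lc.NondetTimeSpaceSAC

open Pool.Agent.W994.NC Pool.Agent.W994.SAC
open Pool.Agent.W997.DB (Word Var Input rootBit ByProgram)

/-- Let `0 ≤ θ < 1/4` and `δ > 0`. There are `a, q, p₀` and `c > 0` such that for all `p ≥ p₀`, with
`h = q (p + 2)`, `ℓ = a p`, `N` the number of variables of the evaluation problem for the unrolled
De Bruijn graph of height `h` over the alphabet `2^ℓ`, and `f` the lowest bit of the value of a root: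

(1) `f` and its complement are computed by semi-unbounded circuits with `N^2` gates and depth
`8 log N`;

(2) `f` is computed by a deterministic program with a pushdown store, with at most `N^2` states and
stack symbols and at most `N^2` steps;

(3) `f` is computed by a deterministic branching program of log size `N^δ` with at most `N^δ` steps;

(4) each nondeterministic branching program which computes `f` and has on each input with
`f = true` an accepting computation of at most `N^θ` steps has a log size larger than `N^c`;

(5) and so has each such program for the complement of `f`. -/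
theorem result (θ δ : ℝ) (hθ0 : 0 ≤ θ) (hθ : θ < 1 / 4) (hδ : 0 < δ) :
    ∃ (a q p₀ : ℕ) (c : ℝ), 0 < c ∧ ∀ p : ℕ, p₀ ≤ p →
    ∀ h : ℕ, h = q * (p + 2) → ∀ ℓ : ℕ, ℓ = a * p →
    ∀ N : ℕ, N = Fintype.card (Var 2 p h (2 ^ ℓ)) →
    ∀ (g : Word 2 p) (i : Fin 2) (f : Input 2 p h (2 ^ ℓ) → Bool), f = rootBit g i →
      BySAC f ((N : ℝ) ^ 2) (8 * Real.log N) ∧
      BySAC (fun x => !f x) ((N : ℝ) ^ 2) (8 * Real.log N) ∧
      ByPushdown f ((N : ℝ) ^ 2) ((N : ℝ) ^ 2) ∧
      ByProgram f ((N : ℝ) ^ δ) ((N : ℝ) ^ δ) ((N : ℝ) ^ δ) ∧
      NondetHard f ((N : ℝ) ^ c) ((N : ℝ) ^ θ) ∧
      NondetHard (fun x => !f x) ((N : ℝ) ^ c) ((N : ℝ) ^ θ) :=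
  final θ δ hθ0 hθ hδ

end Pool.Agent.Results.MP_6216ea_lc.NondetTimeSpaceSAC
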