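import Pool.Agent.W953.CF.Asym
import Pool.Agent.W953.NB.DTree

/-!
# LOGCFL and NL: few tests on few slices

Path systems with labelled axioms and rules of polynomial size, in which derivation trees with
polynomially many leaves are asked for, are exactly nonuniform LOGCFL (over the literals); directed
switching networks of polynomial size are exactly NL/poly. For monotone functions it is asked how
much can be done by decision trees of depth `t` whose tests and leaves are monotone directed networks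
(`t` NOT gates) on few consecutive slices (a slice consists of the inputs with a given number of
ones).

(A): the question whether LOGCFL/poly = NL/poly is equivalent to its versions for such trees of depth
`t` on `2 ^ t (w + 1)` slices, for every constant `w`, and for trees of depth `log n - K` on all
inputs, for every constant `K`.

(B): without any assumption, for all large `n` and `M n ^ (1 / j) ≤ U ≤ n`, there are functions of
`n` variables with path systems of this kind of size `2 n` without negations for which computations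
in rounds of cost `M` and polynomial size fail on the slices from `k` to `k + U`, for all `k`.
-/

set_option autoImplicit false

namespace Pool.Agent.Results.MP_6216ea_lc.TestsOnSlices

open Pool.Agent.H540R2 Pool.Agent.W953.SP Pool.Agent.W953.NB Pool.Agent.W953.CF

variable {n : ℕ}

/-- the number of ones of an input -/
def ones (x : Fin n → Bool) : ℕ := (Finset.univ.filter (fun i => x i = true)).card

/-- the variables and their negations -/
def literals (x : Fin n → Bool) : Fin (n + n) → Bool := Fin.append x (fun i => !(x i))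

/-- `f` has a directed network of size at most `s` over the literals -/
def Dir (n : ℕ) (f : (Fin n → Bool) → Bool) (s : ℕ) : Prop :=
  ∃ N : Net (Fin (n + n)), N.size ≤ s ∧ ∀ x, N.DAcc (literals x) ↔ f x = true

/-- `f` has a path system of size at most `s` over the literals -/
def LogCF (n : ℕ) (f : (Fin n → Bool) → Bool) (s : ℕ) : Prop :=
  ∃ S : Sys (Fin (n + n)), S.size ≤ s ∧ ∀ x, S.Acc (literals x) ↔ f x = true

/-- `f` has a path system of size at most `s` over the variables -/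
def MonLogCF (n : ℕ) (f : (Fin n → Bool) → Bool) (s : ℕ) : Prop :=
  ∃ S : Sys (Fin n), S.size ≤ s ∧ ∀ x, S.Acc x ↔ f x = true

/-- complexity `S` in the sense of `B` implies complexity `S ^ O(1)` in the sense of `A`, for
functions of at most `S` variables -/
def Sim (A B : ∀ n : ℕ, ((Fin n → Bool) → Bool) → ℕ → Prop) : Prop :=
  ∃ c : ℕ, ∀ (S n : ℕ) (f : (Fin n → Bool) → Bool), 2 ≤ S → n ≤ S → B n f S → A n f (S ^ c)

/-- every monotone function `f` of `n ≤ S` variables with complexity `S` in the sense of `B` agrees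
on the `2 ^ t (w + 1)` slices from `k` on with a decision tree of depth at most `t` and size
`S ^ O(1)` whose tests are networks from `𝒯` -/
def TestsAndSlices (𝒯 : ∀ n : ℕ, Tests (Net (Fin n)) (Fin n))
    (B : ∀ n : ℕ, ((Fin n → Bool) → Bool) → ℕ → Prop) (w : ℕ) : Prop :=
  ∃ c : ℕ, ∀ (S n : ℕ) (f : (Fin n → Bool) → Bool), 2 ≤ S → n ≤ S → B n f S →
    (∀ x y : Fin n → Bool, (∀ i, x i ≤ y i) → f x ≤ f y) →
    ∀ k t : ℕ, ∃ p : DTree (Net (Fin n)), p.depth ≤ t ∧ p.size (𝒯 n) ≤ S ^ c ∧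
      ∀ x, k ≤ ones x → ones x < k + 2 ^ t * (w + 1) → (p.Acc (𝒯 n) x ↔ f x = true)

/-- the same with depth `log n - K` on all inputs -/
def FewTests (𝒯 : ∀ n : ℕ, Tests (Net (Fin n)) (Fin n))
    (B : ∀ n : ℕ, ((Fin n → Bool) → Bool) → ℕ → Prop) (K : ℕ) : Prop :=
  ∃ c : ℕ, ∀ (S n : ℕ) (f : (Fin n → Bool) → Bool), 2 ≤ S → n ≤ S → B n f S →
    (∀ x y : Fin n → Bool, (∀ i, x i ≤ y i) → f x ≤ f y) →
    ∃ p : DTree (Net (Fin n)), p.depth ≤ Nat.log 2 n - K ∧ p.size (𝒯 n) ≤ S ^ c ∧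
      ∀ x, p.Acc (𝒯 n) x ↔ f x = true

/-- every function `f` of `n ≤ S` variables with complexity `S` in the sense of `B` agrees on the
`w n + 1` slices from `k` on with such a tree of depth at most `t n` and size `S ^ O(1)` -/
def SomeTestsSomeSlices (𝒯 : ∀ n : ℕ, Tests (Net (Fin n)) (Fin n))
    (B : ∀ n : ℕ, ((Fin n → Bool) → Bool) → ℕ → Prop) (t w : ℕ → ℕ) : Prop :=
  ∃ c : ℕ, ∀ (S n : ℕ) (f : (Fin n → Bool) → Bool), 2 ≤ S → n ≤ S → B n f S →
    ∀ k : ℕ, ∃ p : DTree (Net (Fin n)), p.depth ≤ t n ∧ p.size (𝒯 n) ≤ S ^ c ∧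
      ∀ x, k ≤ ones x → ones x ≤ k + w n → (p.Acc (𝒯 n) x ↔ f x = true)

/-- the four equivalent statements for the tests `𝒯` and the measures `A` (for the tests with
negated variables), `B` and `M` (`B` without negations) -/
def Equivalent (𝒯 : ∀ n : ℕ, Tests (Net (Fin n)) (Fin n))
    (A B M : ∀ n : ℕ, ((Fin n → Bool) → Bool) → ℕ → Prop) : Prop :=
  List.TFAE [Sim A B, ∀ w : ℕ, TestsAndSlices 𝒯 B w, ∀ K : ℕ, FewTests 𝒯 B K,
    ∃ t w : ℕ → ℕ, SomeTestsSomeSlices 𝒯 M t w]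

open Classical in
lemma transfer (𝒯 : ∀ n : ℕ, Tests (Net (Fin n)) (Fin n)) (𝓐 : Model) (𝓑 : Big)
    (A B M : ∀ n : ℕ, ((Fin n → Bool) → Bool) → ℕ → Prop)
    (hA : ∀ n f s, A n f s ↔ 𝓐.L f s) (hB : ∀ n f s, B n f s ↔ 𝓑.G f s)
    (hM : ∀ n f s, M n f s ↔ 𝓑.M f s)
    (h𝓐 : ∀ (n : ℕ) (f : BF n) (s : ℕ), 𝓐.K f s →
      ∃ P : Net (Fin n), (𝒯 n).size P ≤ s ∧ ∀ x, (𝒯 n).acc P x ↔ f x = true)
    (h𝓐' : ∀ (n : ℕ) (P : Net (Fin n)),
      𝓐.K (fun x : Fin n → Bool => decide ((𝒯 n).acc P x)) ((𝒯 n).size P))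
    {c : ℕ} (hc : 1 ≤ c) (hcompl : 𝓐.Compl c) : Equivalent 𝒯 A B M := by
  have hT := tfae (𝓐 := 𝓐) (𝓑 := 𝓑) hc hcompl
  have hT1 : Poly 𝓐 𝓑 → ∀ w, Windows 𝓐 𝓑 w := (hT.out 0 1).mp
  have hT2 : Poly 𝓐 𝓑 → ∀ K, Few 𝓐 𝓑 K := (hT.out 0 2).mp
  have hT3 : (∃ t w : ℕ → ℕ, Some' 𝓐 𝓑 t w) → Poly 𝓐 𝓑 := (hT.out 0 3).mpr
  have h1 : Poly 𝓐 𝓑 → Sim A B := by
    rintro ⟨c, hc⟩
    exact ⟨c, fun S n f hS hn hf => (hA n f _).mpr (hc S n f hS hn ((hB n f S).mp hf))⟩
  have h1' : Sim A B → Poly 𝓐 𝓑 := by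
    rintro ⟨c, hc⟩
    exact ⟨c, fun S n f hS hn hf => (hA n f _).mp (hc S n f hS hn ((hB n f S).mpr hf))⟩
  have h2 : ∀ w, Windows 𝓐 𝓑 w → TestsAndSlices 𝒯 B w := by
    rintro w ⟨c, hc⟩
    refine ⟨c, fun S n f hS hn hf hmon k t => ?_⟩
    obtain ⟨g, hg, hgx⟩ := hc S n f hS hn ((hB n f S).mp hf) hmon k t
    obtain ⟨p, p1, p2, p3⟩ := tree_of_TA (h𝓐 n) hg
    exact ⟨p, p1, p2, fun x hx1 hx2 => by rw [p3, hgx x hx1 hx2]⟩
  have h3 : ∀ K, Few 𝓐 𝓑 K → FewTests 𝒯 B K := by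
    rintro K ⟨c, hc⟩
    exact ⟨c, fun S n f hS hn hf hmon =>
      tree_of_TA (h𝓐 n) (hc S n f hS hn ((hB n f S).mp hf) hmon)⟩
  have h4 : ∀ t w, SomeTestsSomeSlices 𝒯 M t w → Some' 𝓐 𝓑 t w := by
    rintro t w ⟨c, hc⟩
    refine ⟨c, fun S n f hS hn hf k => ?_⟩
    obtain ⟨p, p1, p2, p3⟩ := hc S n f hS hn ((hM n f S).mpr hf) k
    refine ⟨_, TA_of_tree (h𝓐' n) p _ _ p1 p2, fun x hx1 hx2 => ?_⟩
    rw [Bool.eq_iff_iff, decide_eq_true_iff]
    exact p3 x hx1 hx2
  have h24 : (∀ w : ℕ, TestsAndSlices 𝒯 B w) → ∃ t w : ℕ → ℕ, SomeTestsSomeSlices 𝒯 M t w := by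
    intro h
    obtain ⟨c, hc⟩ := h 0
    refine ⟨fun _ => 0, fun _ => 0, c, fun S n f hS hn hf k => ?_⟩
    have hf' := (hM n f S).mp hf
    obtain ⟨p, p1, p2, p3⟩ := hc S n f hS hn ((hB n f S).mpr (𝓑.toG hf')) (𝓑.incr hf') k 0
    exact ⟨p, p1, p2, fun x hx1 hx2 => p3 x hx1 (by simpa using Nat.lt_succ_of_le hx2)⟩
  have h34 : (∀ K : ℕ, FewTests 𝒯 B K) → ∃ t w : ℕ → ℕ, SomeTestsSomeSlices 𝒯 M t w := by
    intro h
    obtain ⟨c, hc⟩ := h 0
    refine ⟨fun n => Nat.log 2 n - 0, fun n => n, c, fun S n f hS hn hf k => ?_⟩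
    have hf' := (hM n f S).mp hf
    obtain ⟨p, p1, p2, p3⟩ := hc S n f hS hn ((hB n f S).mpr (𝓑.toG hf')) (𝓑.incr hf')
    exact ⟨p, p1, p2, fun x _ _ => p3 x⟩
  unfold Equivalent
  tfae_have 1 → 2 := fun h w => h2 w (hT1 (h1' h) w)
  tfae_have 1 → 3 := fun h K => h3 K (hT2 (h1' h) K)
  tfae_have 2 → 4 := h24
  tfae_have 3 → 4 := h34
  tfae_have 4 → 1 := fun ⟨t, w, h⟩ => h1 (hT3 ⟨t, w, h4 t w h⟩)
  tfae_finish

/-- (A) LOGCFL/poly = NL/poly is equivalent to its versions with few tests by monotone directed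
networks on few slices.
(B) For all `c`, `j` and all large `n`: if `1 ≤ j`, `M n ^ (1 / j) ≤ U ≤ n` then some path system `S`
over `n` variables of size at most `2 n` has the property: for all `k ≤ n - U` no computation in
rounds with monotone directed networks as tests, of cost at most `M` and total size at most `n ^ c`
on each path, agrees with `S` on all inputs with at least `k` and at most `k + U` ones. -/
theorem result :
    Equivalent (fun n => dnetTests (Fin n)) Dir LogCF MonLogCF ∧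
    ∀ c j : ℕ, 1 ≤ j → ∃ n₀ : ℕ, ∀ n M U : ℕ, n₀ ≤ n → M ^ j * n ≤ U ^ j → U ≤ n →
      ∃ S : Sys (Fin n), S.size ≤ 2 * n ∧
        ∀ k, k + U ≤ n → ∀ p : Prog (Net (Fin n)), p.cost ≤ M → p.load (dnetTests _) ≤ n ^ c →
          ∃ x, k ≤ ones x ∧ ones x ≤ k + U ∧ ¬ (p.Acc (dnetTests _) x ↔ S.Acc x) := by
  classical
  refine ⟨?_, fun c j hj => ?_⟩
  · refine transfer _ dir cfB Dir LogCF MonLogCF ?_ (fun _ _ _ => Iff.rfl)
      (fun _ _ _ => Iff.rfl) (fun _ _ _ h => h) (fun n P => ⟨P, le_rfl, fun x => by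
        rw [decide_eq_true_iff]; rfl⟩) (by norm_num) dir_compl
    intro n f s
    constructor
    · rintro ⟨N, hN, hNf⟩
      refine ⟨fun y => decide (N.DAcc y), ⟨N, hN, fun y => decide_eq_true_iff.symm⟩, fun x => ?_⟩
      rw [Bool.eq_iff_iff, decide_eq_true_iff]
      exact hNf x
    · rintro ⟨Q, ⟨N, hN, hNQ⟩, hQ⟩
      exact ⟨N, hN, fun x => by rw [hNQ]; exact Iff.of_eq (congrArg (· = true) (hQ x))⟩
  · obtain ⟨i, rfl⟩ : ∃ i, j = i + 1 := ⟨j - 1, by omega⟩
    obtain ⟨n₀, h⟩ := cf_hard c i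
    exact ⟨n₀, fun n M U hn h1 h2 => h n M U hn h1 h2⟩

end Pool.Agent.Results.MP_6216ea_lc.TestsOnSlices
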